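import Pool.Agent.Helper64.DT.Stmts

/-! Module D3A of the DT crew (MP_866009_co). -/

set_option autoImplicit false

namespace Pool.Agent.Helper64.DT

open Pool.Agent.Helper64.CT
open Pool.Agent.Helper64.HG (Ovl Model Circ IC HellyCircle ChordModel)

theorem st_D3A (h1 : CT.ST_BET) (h2 : ST_D2) : ST_D3A := by
  intro V G s hc hp hdf hci hs ht x a b c _ _ _ hab hac hbc nab nac nbc h3 h4
  have hac' : a ∈ Far G c := ⟨hac, fun h => nac h.symm⟩
  have hbc' : b ∈ Far G c := ⟨hbc, fun h => nbc h.symm⟩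
  have hn : ¬ Comp G c a b := fun h => h3 ((hs c).1 _ _ h)
  by_cases hA : Alpha G a c b
  · exact (h2 V G s hc hp hdf hci hs ht a c b hac' hA).1 ⟨h4, fun h => h3 h.symm⟩
  · have h5 := h1 V G a c b hac' hbc' hn hA b (Comp.refl hbc')
    exact h4 ((hs a).1 _ _ h5).symm

end Pool.Agent.Helper64.DT
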